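import Mathlib
import Pool.Agent.H27.PiB2

set_option autoImplicit false

namespace Pool.Agent.Results.MP_235f01_an.NoSuperADP

open Filter Topology Set

/-- The closed unit ball of `X` with the relative weak topology. -/
abbrev WeakBall (X : Type) [NormedAddCommGroup X] [NormedSpace ℝ X] : Type :=
  {x : WeakSpace ℝ X // ‖(toWeakSpace ℝ X).symm x‖ ≤ 1}

/-- The super alternative Daugavet property. -/
def SuperADP (X : Type) [NormedAddCommGroup X] [NormedSpace ℝ X] : Prop :=
  ¬ FiniteDimensional ℝ X ∧ ∀ x : X, ‖x‖ = 1 → ∀ W : Set (WeakBall X), IsOpen W → W.Nonempty →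
    IsLUB ((fun y : WeakBall X =>
      max ‖x + (toWeakSpace ℝ X).symm y.1‖ ‖x - (toWeakSpace ℝ X).symm y.1‖) '' W) 2

/-- `e` is a Schauder basis of `X`. -/
def IsSchauderBasis {X : Type} [NormedAddCommGroup X] [NormedSpace ℝ X] (e : ℕ → X) : Prop :=
  ∀ x : X, ∃! a : ℕ → ℝ, Tendsto (fun N => ∑ n ∈ Finset.range N, a n • e n) atTop (𝓝 x)

/-- Changing signs of finitely many coefficients does not change the norm. -/
def OneUnconditional {X : Type} [NormedAddCommGroup X] [NormedSpace ℝ X] (e : ℕ → X) : Prop :=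
  ∀ (s : Finset ℕ) (a ε : ℕ → ℝ), (∀ n, ε n = 1 ∨ ε n = -1) →
    ‖∑ n ∈ s, (ε n * a n) • e n‖ = ‖∑ n ∈ s, a n • e n‖

/-- No real Banach space with a 1-unconditional basis has the super ADP. -/
theorem result (X : Type) [NormedAddCommGroup X] [NormedSpace ℝ X] [CompleteSpace X] (e : ℕ → X)
    (hb : IsSchauderBasis e) (hu : OneUnconditional e) : ¬ SuperADP X := by
  rintro ⟨-, h⟩
  have h0 : ∀ n, e n ≠ 0 := fun n hn => by
    obtain ⟨a, -, ha⟩ := hb 0
    have h1 := ha 0 (by simp)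
    have h2 := ha (Pi.single n 1) (by
      have : ∀ m, (Pi.single n 1 : ℕ → ℝ) m • e m = 0 := fun m => by
        by_cases hm : m = n
        · simp [hm, hn]
        · simp [hm]
      simp [this])
    have := congrFun (h1.trans h2.symm) n
    simp at this
  haveI : Nontrivial X := ⟨⟨e 0, 0, h0 0⟩⟩
  obtain ⟨𝒰, h1, h2, h3⟩ := Pool.Agent.H27.PiB.pibase (e := e) (fun x => by
    obtain ⟨a, ha, -⟩ := hb x
    exact mem_closure_of_tendsto ha (Eventually.of_forall fun N => Submodule.sum_mem _ fun n _ =>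
      Submodule.smul_mem _ _ (Submodule.subset_span ⟨n, rfl⟩)))
    (fun s a ε hε => (hu s a ε hε).le) h0
  refine Pool.Agent.H27.PiB.no_pibase (fun x hx W hW hne η hη => ?_) 𝒰 h1 h2 h3
  obtain ⟨_, ⟨y, hy, rfl⟩, h4, -⟩ := (h x hx W hW hne).exists_between (by linarith : 2 - η < 2)
  exact ⟨y, hy, h4⟩

end Pool.Agent.Results.MP_235f01_an.NoSuperADP
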